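import Pool.Agent.MP_cce4c9_lc.H87.SpecR

/-!
Semantics of the data attached to a point.
-/

set_option autoImplicit false

open Polynomial Pool.Agent.MP_cce4c9_lc.H87

namespace Pool.Agent.MP_cce4c9_lc.H55

variable {F k : Type} [Field F] [Field k] {D : Ds} {π : Pres D F} {ι : F →+* k} {B : Ds}
  {φ : El → k}

theorem toP_full {S : Type} [CommRing S] {ψ : El → S} (h : Hm B ψ) (fl : List El) :
    toP ψ (fullL B fl) = toM ψ fl :=
  toP_append_one fl (by rw [h.cst, Nat.cast_one])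

theorem toP_der {S : Type} [CommRing S] {ψ : El → S} (h : Hm B ψ) (G : List El) :
    toP ψ (derL B G) = derivative (toP ψ G) := by
  ext i
  rw [coeff_derivative, coeff_toP h.nil, coeff_toP h.nil]
  by_cases hi : i < G.length - 1
  · have e : (derL B G).getD i [] = mul B (cst B (i + 1)) (G.getD (i + 1) []) := by
      simp [derL, List.getD_eq_getElem?_getD, hi]
    rw [e, h.mul, h.cst]
    push_cast
    ring
  · have e : (derL B G).getD i [] = [] :=
      List.getD_eq_default _ _ (by simpa [derL] using hi)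
    have e' : G.getD (i + 1) [] = [] := List.getD_eq_default _ _ (by omega)
    rw [e, e', h.nil, zero_mul]

theorem prod_eqz (h : IsPt π ι B φ) (L : List El) :
    φ (prodL B (L.map (eqz B))) ≠ 0 ↔ ∀ a ∈ L, φ a = 0 := by
  classical
  rw [h.hm.prodL, List.map_map, Ne, List.prod_eq_zero_iff, List.mem_map]
  constructor
  · intro H a ha
    by_contra hne
    exact H ⟨a, ha, by simp [h.eqz, hne]⟩
  · rintro H ⟨a, ha, e⟩
    simp [h.eqz, H a ha] at e

theorem bas_iff (h : IsPt π ι B φ) {fl : List El} {f : k[X]} (hf : toM φ fl = f) (d m : ℕ)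
    (b : List El) :
    (∀ a ∈ basA B fl d m b, φ a = 0) ↔ Bas f d m fun i => φ (b.getD i []) := by
  have hm := h.hm
  simp only [basA, List.mem_flatMap, List.mem_range, List.mem_cons, List.not_mem_nil, or_false,
    Bas, xs, zs]
  constructor
  · intro H j hj i hi
    have h1 := H _ ⟨j, hj, i, hi, Or.inl rfl⟩
    have h2 := H _ ⟨j, hj, i, hi, Or.inr rfl⟩
    rw [hm.sub, hm.horner, hm.horner, toP_full hm, hf, sub_eq_zero] at h1
    rw [hm.sub, hm.mul, hm.horner, toP_der hm, toP_full hm, hf, hm.cst, Nat.cast_one,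
      sub_eq_zero] at h2
    exact ⟨h1, h2⟩
  · rintro H a ⟨j, hj, i, hi, rfl | rfl⟩
    · rw [hm.sub, hm.horner, hm.horner, toP_full hm, hf, sub_eq_zero]
      exact (H j hj i hi).1
    · rw [hm.sub, hm.mul, hm.horner, toP_der hm, toP_full hm, hf, hm.cst, Nat.cast_one,
        sub_eq_zero]
      exact (H j hj i hi).2

theorem one_sub_ne (h : IsPt π ι B φ) (m : ℕ) (u v : ℕ → El) :
    φ (sub B (cst B 1) (prodL B ((List.range m).map fun i => eqz B (sub B (u i) (v i))))) ≠ 0 ↔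
      ∃ i < m, φ (u i) ≠ φ (v i) := by
  classical
  have hm := h.hm
  rw [hm.sub, hm.cst, Nat.cast_one, hm.prodL_range]
  simp only [h.eqz, hm.sub, sub_eq_zero]
  rw [Finset.prod_boole]
  simp only [Finset.mem_range]
  by_cases H : ∀ i < m, φ (u i) = φ (v i)
  · rw [if_pos H, sub_self]
    exact ⟨fun e => absurd rfl e, fun ⟨i, hi, e⟩ => absurd (H i hi) e⟩
  · rw [if_neg H, sub_zero]
    refine ⟨fun _ => ?_, fun _ => one_ne_zero⟩
    by_contra H'
    exact H fun i hi => by_contra fun e => H' ⟨i, hi, e⟩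

theorem dis_iff (h : IsPt π ι B φ) (d m : ℕ) (μ : List ℕ) (b : List El) :
    φ (disA B d m μ b) ≠ 0 ↔ Dis d m (μ.getD · 0) fun i => φ (b.getD i []) := by
  rw [disA, h.hm.prodL, Ne, List.prod_eq_zero_iff, List.mem_map]
  simp only [List.mem_flatMap, List.mem_map, List.mem_filter, List.mem_range, Bool.and_eq_true,
    decide_eq_true_eq, bne_iff_ne, Dis, xs]
  constructor
  · intro H j hj j' hj' h1 h2
    refine (one_sub_ne h m (fun i => b.getD (2 * m * j + i) [])
      (fun i => b.getD (2 * m * j' + i) [])).1 fun e => ?_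
    exact H ⟨_, ⟨j, hj, j', ⟨hj'.trans hj, ⟨hj', h1⟩, h2⟩, rfl⟩, e⟩
  · rintro H ⟨a, ⟨j, hj, j', ⟨-, ⟨hj', h1⟩, h2⟩, rfl⟩, e⟩
    exact (one_sub_ne h m (fun i => b.getD (2 * m * j + i) [])
      (fun i => b.getD (2 * m * j' + i) [])).2 (H j hj j' hj' h1 h2) e

theorem mem_rowsL {d m l : ℕ} {μ : List ℕ} (hμ : ∀ j < mm d m, μ.getD j 0 ≤ mm d m)
    (ρ : ℕ × ℕ) : ρ ∈ rowsL d m l μ ↔ ρ.1 < mm d m ∧ ρ.2 < l * μ.getD ρ.1 0 := by
  simp only [rowsL, List.mem_flatMap, List.mem_map, List.mem_range]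
  constructor
  · rintro ⟨j, hj, r, hr, rfl⟩
    rw [min_eq_left (hμ j hj)] at hr
    exact ⟨hj, hr⟩
  · rintro ⟨h1, h2⟩
    exact ⟨ρ.1, h1, ρ.2, by rwa [min_eq_left (hμ _ h1)], rfl⟩

theorem dat1_ : StmtTAY → StmtDAT1 := by
  intro hT F k _ _ D π ι fl d m l f pat B φ b hI hl hm hd hP hμ
  have hM := hP.hm
  have hpos : 0 < l * mm d m := by
    have : 0 < d := by omega
    unfold mm N0
    positivity
  have hf : toM φ fl = f := by
    obtain ⟨R', _, π', P, -, -, h3, -⟩ := hP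
    rw [← hI.2.2, toM_map, toM, toM, toP_congr fun a ha => h3 a (hI.2.1 a ha)]
  have hlt : ∀ ρ ∈ rowsL d m l pat.1, ρ.2 < l * mm d m := fun ρ hρ => by
    obtain ⟨h1, h2⟩ := (mem_rowsL hμ ρ).1 hρ
    exact h2.trans_le (Nat.mul_le_mul_left _ (hμ _ h1))
  have key : (∀ e J, φ (crA B fl d m l b (selR d m l pat) e J) =
      crP f d m l (fun i => φ (b.getD i [])) (selR d m l pat) e J) ∧
      ∀ c ρ, ρ.2 < l * mm d m → φ (vanA B fl d m l b c ρ) =
        vanP f d m l (fun i => φ (b.getD i [])) (tb φ c) ρ := by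
    obtain ⟨R', _, π', P, -, h2, -, h4⟩ := hP
    have e : φ = fun a => P (π'.val a) := funext h4
    have hI' : Inp π' P fl d f :=
      ⟨hI.1, fun a ha => (hI.2.1 a ha).trans h2, by rw [toM_map, ← e, hf]⟩
    obtain ⟨-, t2, t3⟩ := hT B R' k π' P fl d m l f b hI' hpos
    subst e
    exact ⟨fun e J => t2 _ e J fun ρ hρ => hlt ρ (List.mem_filter.1 hρ).1, t3⟩
  refine ⟨?_, fun h0 J hJ e he => ?_⟩
  · simp only [dat1]
    rw [hM.mul, mul_ne_zero_iff, prod_eqz hP, dis_iff hP, Sol, ← bas_iff hP hf]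
    simp only [List.mem_append, List.mem_singleton, List.mem_map]
    constructor
    · rintro ⟨H, H'⟩
      refine ⟨fun a ha => H a (Or.inl (Or.inl ha)), H', ?_, fun j hj r hr => ?_⟩
      · have := H _ (Or.inl (Or.inr rfl))
        rwa [hM.sub, hM.cst, Nat.cast_one, sub_eq_zero] at this
      · have hρ := (mem_rowsL hμ (j, r)).2 ⟨hj, hr⟩
        rw [← key.2 _ _ (hlt _ hρ)]
        exact H _ (Or.inr ⟨_, hρ, rfl⟩)
    · rintro ⟨H1, H2, H3, H4⟩
      refine ⟨?_, H2⟩
      rintro a ((ha | rfl) | ⟨ρ, hρ, rfl⟩)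
      · exact H1 a ha
      · rw [hM.sub, hM.cst, Nat.cast_one, sub_eq_zero]
        exact H3
      · rw [key.2 _ _ (hlt _ hρ)]
        obtain ⟨h1, h2⟩ := (mem_rowsL hμ ρ).1 hρ
        exact H4 ρ.1 h1 ρ.2 h2
  · simp only [dat1, tb, datC]
    rw [ent_mat _ (Nat.lt_succ_of_le he) hJ, hM.mul, hP.qinv (by rwa [key.1]), key.1, key.1,
      div_eq_mul_inv]

end Pool.Agent.MP_cce4c9_lc.H55
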